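import Mathlib

set_option autoImplicit false

namespace Pool.Agent.Results.MP_bed60c_co.HyperopicJoin

/-! ### Hyperopic Cops and Robber -/

section Game

variable {V : Type}

/-- The cops see a robber on `r` unless `r` is adjacent to the vertex of every cop. -/
def Visible (G : SimpleGraph V) {k : ℕ} (c : Fin k → V) (r : V) : Prop := ∃ i, ¬ G.Adj (c i) r

open Classical in
/-- What the cops on `c` observe if the robber is on `r`: his vertex, or nothing. -/
noncomputable def obs (G : SimpleGraph V) {k : ℕ} (c : Fin k → V) (r : V) : Option V :=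
  if Visible G c r then some r else none

/-- `S` is the set of vertices on which the robber may be, as far as the cops know, with the cops to
move.  They move to `c'` and observe `o₁`; then the robber moves and they observe `o₂`.  If no cop is
now on the robber's vertex, the robber may be on the vertices of this set. -/
def Know (G : SimpleGraph V) {k : ℕ} (c' : Fin k → V) (S : Set V) (o₁ o₂ : Option V) : Set V :=
  {r | ∃ s ∈ S, (∀ i, c' i ≠ s) ∧ obs G c' s = o₁ ∧ (r = s ∨ G.Adj s r) ∧ (∀ i, c' i ≠ r) ∧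
    obs G c' r = o₂}

/-- The cops, on `c` and to move, with the knowledge that the robber is in `S`, can guarantee capture
in finitely many moves: they have a move to some `c'` such that for all possible observations they
can guarantee capture from the resulting knowledge. -/
inductive Force (G : SimpleGraph V) {k : ℕ} : (Fin k → V) → Set V → Prop
  | step (c c' : Fin k → V) (S : Set V) (hmove : ∀ i, c' i = c i ∨ G.Adj (c i) (c' i))
      (h : ∀ o₁ o₂, (Know G c' S o₁ o₂).Nonempty → Force G c' (Know G c' S o₁ o₂)) : Force G c S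

/-- `k` cops win: they have initial vertices `c` such that, whatever they observe after the robber
has chosen his vertex, they can guarantee capture. -/
def CopsWin (G : SimpleGraph V) (k : ℕ) : Prop :=
  ∃ c : Fin k → V, ∀ o, ({r | (∀ i, c i ≠ r) ∧ obs G c r = o} : Set V).Nonempty →
    Force G c {r | (∀ i, c i ≠ r) ∧ obs G c r = o}

/-- The hyperopic cop number. -/
noncomputable def cH (G : SimpleGraph V) : ℕ := sInf {k | CopsWin G k}

/-- `S` is a small common neighbourhood set. -/
def SmallCommon (G : SimpleGraph V) (S : Finset V) : Prop :=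
  S.Nonempty ∧ {x | ∀ v ∈ S, G.Adj v x}.ncard ≤ S.card

/-- `Υ(G)`, the least size of a small common neighbourhood set. -/
noncomputable def Upsilon (G : SimpleGraph V) : ℕ := sInf {n | ∃ S, SmallCommon G S ∧ S.card = n}

/-- The join of two graphs. -/
def join {W : Type} (G : SimpleGraph V) (J : SimpleGraph W) : SimpleGraph (V ⊕ W) where
  Adj
    | Sum.inl u, Sum.inl v => G.Adj u v
    | Sum.inr u, Sum.inr v => J.Adj u v
    | _, _ => True
  symm := ⟨by
    rintro (u | u) (v | v) h
    · exact SimpleGraph.Adj.symm (G := G) h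
    · trivial
    · trivial
    · exact SimpleGraph.Adj.symm (G := J) h⟩
  loopless := ⟨by
    rintro (u | u) h
    · exact G.loopless.irrefl u h
    · exact J.loopless.irrefl u h⟩

/-! ### Monotonicity in the number of cops -/

lemma obs_comp {G : SimpleGraph V} {k l : ℕ} (f : Fin l → Fin k) (hf : Function.Surjective f)
    (c : Fin k → V) (r : V) : obs G (c ∘ f) r = obs G c r := by
  have h : Visible G (c ∘ f) r ↔ Visible G c r := by
    constructor
    · rintro ⟨i, hi⟩; exact ⟨f i, hi⟩
    · rintro ⟨i, hi⟩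
      obtain ⟨j, rfl⟩ := hf i
      exact ⟨j, hi⟩
  unfold obs
  by_cases hv : Visible G c r
  · rw [if_pos hv, if_pos (h.2 hv)]
  · rw [if_neg hv, if_neg (fun h' => hv (h.1 h'))]

lemma forall_comp {k l : ℕ} (f : Fin l → Fin k) (hf : Function.Surjective f)
    (c : Fin k → V) (r : V) : (∀ i, (c ∘ f) i ≠ r) ↔ ∀ i, c i ≠ r := by
  constructor
  · intro h i
    obtain ⟨j, rfl⟩ := hf i
    exact h j
  · intro h i; exact h (f i)

lemma know_comp {G : SimpleGraph V} {k l : ℕ} (f : Fin l → Fin k) (hf : Function.Surjective f)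
    (c : Fin k → V) (S : Set V) (o₁ o₂ : Option V) :
    Know G (c ∘ f) S o₁ o₂ = Know G c S o₁ o₂ := by
  unfold Know
  simp only [obs_comp f hf, forall_comp f hf]

lemma Force.comp {G : SimpleGraph V} {k l : ℕ} (f : Fin l → Fin k) (hf : Function.Surjective f)
    {c : Fin k → V} {S : Set V} (h : Force G c S) : Force G (c ∘ f) S := by
  induction h with
  | step c c' S hmove _ ih =>
    refine Force.step _ (c' ∘ f) S (fun i => hmove (f i)) fun o₁ o₂ hne => ?_
    rw [know_comp f hf] at hne ⊢
    exact ih o₁ o₂ hne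

lemma CopsWin.comp {G : SimpleGraph V} {k l : ℕ} (f : Fin l → Fin k) (hf : Function.Surjective f)
    (h : CopsWin G k) : CopsWin G l := by
  obtain ⟨c, hc⟩ := h
  refine ⟨c ∘ f, fun o hne => ?_⟩
  simp only [obs_comp f hf, forall_comp f hf] at hne ⊢
  exact (hc o hne).comp f hf

lemma not_force_zero {G : SimpleGraph V} {c : Fin 0 → V} {S : Set V} (hS : S.Nonempty) :
    ¬ Force G c S := by
  intro h
  induction h with
  | step c c' S _ _ ih =>
    obtain ⟨s, hs⟩ := hS
    have hne : (Know G c' S (obs G c' s) (obs G c' s)).Nonempty :=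
      ⟨s, s, hs, fun i => i.elim0, rfl, Or.inl rfl, fun i => i.elim0, rfl⟩
    exact ih _ _ hne hne

lemma copsWin_two_of_le {G : SimpleGraph V} [Nonempty V] {k : ℕ} (hk : k ≤ 2)
    (h : CopsWin G k) : CopsWin G 2 := by
  interval_cases k
  · obtain ⟨c, hc⟩ := h
    obtain ⟨v⟩ := ‹Nonempty V›
    have hne : ({r | (∀ i, c i ≠ r) ∧ obs G c r = obs G c v} : Set V).Nonempty :=
      ⟨v, fun i => i.elim0, rfl⟩
    exact absurd (hc _ hne) (not_force_zero hne)
  · exact h.comp (fun _ => 0) (fun i => ⟨0, Subsingleton.elim _ _⟩)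
  · exact h

lemma copsWin_card {G : SimpleGraph V} {k : ℕ} (e : Fin k → V) (he : Function.Surjective e) :
    CopsWin G k := by
  refine ⟨e, fun o hne => ?_⟩
  obtain ⟨r, hr, _⟩ := hne
  obtain ⟨i, hi⟩ := he r
  exact absurd hi (hr i)

end Game

/-! ### The computation

The vertices of the join are numbered `0, …, 8`; sets of vertices are bit masks. -/

/-- Neighbourhoods in the join. -/
def nbrs : List ℕ := [504, 408, 480, 499, 491, 477, 445, 383, 255]

/-- adjacency -/
def adjB (u v : ℕ) : Bool := (nbrs.getD u 0).testBit v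

/-- observation (`9` if the robber is invisible) -/
def obsB (a b s : ℕ) : ℕ := if adjB a s && adjB b s then 9 else s

/-- Knowledge sets from which the robber escapes two cops on `a`, `b` (entry `9 a + b`). -/
def fam : List (List ℕ) :=
  [[56], [400], [224], [400], [328], [400], [400], [112], [56, 152], [400], [64], [1], [400],
   [392], [152], [152], [280], [152], [224], [1], [448], [416], [224], [448], [416], [352],
   [224], [400], [400], [416], [400], [259, 289], [273], [161], [81], [97, 98], [328], [392],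
   [224], [259, 289], [328], [193], [137], [321], [73, 224], [400], [152], [448], [273],
   [193], [200], [280], [280], [200], [400], [152], [416], [161], [137], [280], [56, 276],
   [304], [161], [112], [280], [352], [81], [321], [280], [304], [336], [25], [56, 152],
   [152], [224], [97, 98], [73, 224], [200], [161], [25], [81]]

/-- The members of `fam` are sets of vertices that the cops cannot distinguish. -/
def famOK (a b M : ℕ) : Bool :=
  ((List.range 9).any fun v => M.testBit v) && (List.range 10).any fun o =>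
    (List.range 9).all fun v => !(M.testBit v) || (v != a && v != b && obsB a b v == o)

/-- After a cop move to `a'`, `b'` the robber can get to a member of `fam`. -/
def stepOK (M a' b' : ℕ) : Bool :=
  (fam.getD (9 * a' + b') []).any fun M' => (List.range 10).any fun o =>
    (List.range 9).all fun v => !(M'.testBit v) || (List.range 9).any fun s =>
      M.testBit s && s != a' && s != b' && obsB a' b' s == o && (v == s || adjB s v)

lemma check : ((List.range 9).all fun a => (List.range 9).all fun b =>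
    !(fam.getD (9 * a + b) []).isEmpty && (fam.getD (9 * a + b) []).all fun M =>
      famOK a b M && (List.range 9).all fun a' => !(a' == a || adjB a a') ||
        (List.range 9).all fun b' => !(b' == b || adjB b b') || stepOK M a' b') = true := by
  decide +kernel

section Transfer

variable {V : Type} {G : SimpleGraph V} (ix : V → ℕ)

/-- The numbering describes the graph. -/
structure Numbering (G : SimpleGraph V) (ix : V → ℕ) : Prop where
  inj : Function.Injective ix
  lt : ∀ v, ix v < 9
  surj : ∀ i, i < 9 → ∃ v, ix v = i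
  adj : ∀ u v, G.Adj u v ↔ adjB (ix u) (ix v) = true

variable {ix}

lemma obs_eq_iff (H : Numbering G ix) (c : Fin 2 → V) (s t : V) :
    obsB (ix (c 0)) (ix (c 1)) (ix s) = obsB (ix (c 0)) (ix (c 1)) (ix t) →
      obs G c s = obs G c t := by
  intro h
  have hv : ∀ x, Visible G c x ↔ ¬ (adjB (ix (c 0)) (ix x) && adjB (ix (c 1)) (ix x)) = true := by
    intro x
    rw [Bool.and_eq_true, ← H.adj, ← H.adj]
    unfold Visible
    rw [Fin.exists_fin_two]
    tauto
  unfold obs
  unfold obsB at h
  have hs := H.lt s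
  have ht := H.lt t
  by_cases h1 : (adjB (ix (c 0)) (ix s) && adjB (ix (c 1)) (ix s)) = true
  · by_cases h2 : (adjB (ix (c 0)) (ix t) && adjB (ix (c 1)) (ix t)) = true
    · rw [if_neg (by rw [hv]; simp [h1]), if_neg (by rw [hv]; simp [h2])]
    · rw [if_pos h1, if_neg h2] at h
      omega
  · by_cases h2 : (adjB (ix (c 0)) (ix t) && adjB (ix (c 1)) (ix t)) = true
    · rw [if_neg h1, if_pos h2] at h
      omega
    · rw [if_neg h1, if_neg h2] at h
      have : s = t := H.inj h
      rw [this]

/-- all vertices of the mask are in `S` -/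
def Sub (ix : V → ℕ) (M : ℕ) (S : Set V) : Prop := ∀ v, M.testBit (ix v) = true → v ∈ S

lemma famOK_spec (H : Numbering G ix) (c : Fin 2 → V) {M : ℕ}
    (h : famOK (ix (c 0)) (ix (c 1)) M = true) :
    ∃ r, M.testBit (ix r) = true ∧
      ∀ v, M.testBit (ix v) = true → (∀ i, c i ≠ v) ∧ obs G c v = obs G c r := by
  unfold famOK at h
  simp only [Bool.and_eq_true, List.any_eq_true, List.mem_range, List.all_eq_true] at h
  obtain ⟨⟨i, hi, hiM⟩, o, _, ho⟩ := h
  obtain ⟨r, rfl⟩ := H.surj i hi
  refine ⟨r, hiM, ?_⟩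
  have key : ∀ v, M.testBit (ix v) = true →
      ix v ≠ ix (c 0) ∧ ix v ≠ ix (c 1) ∧ obsB (ix (c 0)) (ix (c 1)) (ix v) = o := by
    intro v hv
    have := ho (ix v) (H.lt v)
    rw [hv] at this
    simp only [Bool.not_true, Bool.false_or, Bool.and_eq_true, bne_iff_ne, ne_eq,
      beq_iff_eq] at this
    exact ⟨this.1.1, this.1.2, this.2⟩
  intro v hv
  obtain ⟨h1, h2, h3⟩ := key v hv
  refine ⟨?_, obs_eq_iff H c v r (h3.trans (key r hiM).2.2.symm)⟩
  intro i hi
  fin_cases i
  · exact h1 (congrArg ix hi).symm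
  · exact h2 (congrArg ix hi).symm

lemma check_spec (H : Numbering G ix) (c : Fin 2 → V) :
    (fam.getD (9 * ix (c 0) + ix (c 1)) [] ≠ []) ∧
    ∀ M ∈ fam.getD (9 * ix (c 0) + ix (c 1)) [], famOK (ix (c 0)) (ix (c 1)) M = true ∧
      ∀ c' : Fin 2 → V, (∀ i, c' i = c i ∨ G.Adj (c i) (c' i)) →
        stepOK M (ix (c' 0)) (ix (c' 1)) = true := by
  have h := check
  simp only [List.all_eq_true, List.mem_range] at h
  have h1 := h (ix (c 0)) (H.lt _) (ix (c 1)) (H.lt _)
  rw [Bool.and_eq_true, List.all_eq_true] at h1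
  refine ⟨?_, ?_⟩
  · intro hnil
    rw [hnil] at h1
    simp at h1
  · intro M hM
    have h2 := h1.2 M hM
    rw [Bool.and_eq_true] at h2
    refine ⟨h2.1, ?_⟩
    intro c' hc'
    have h3 := h2.2
    rw [List.all_eq_true] at h3
    have h4 := h3 (ix (c' 0)) (List.mem_range.2 (H.lt _))
    have e0 : (ix (c' 0) == ix (c 0) || adjB (ix (c 0)) (ix (c' 0))) = true := by
      rcases hc' 0 with h | h
      · simp [h]
      · rw [H.adj] at h; simp [h]
    have e1 : (ix (c' 1) == ix (c 1) || adjB (ix (c 1)) (ix (c' 1))) = true := by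
      rcases hc' 1 with h | h
      · simp [h]
      · rw [H.adj] at h; simp [h]
    rw [e0, Bool.not_true, Bool.false_or, List.all_eq_true] at h4
    have h5 := h4 (ix (c' 1)) (List.mem_range.2 (H.lt _))
    rw [e1, Bool.not_true, Bool.false_or] at h5
    exact h5

lemma not_force (H : Numbering G ix) {c : Fin 2 → V} {S : Set V} (h : Force G c S) :
    ∀ M ∈ fam.getD (9 * ix (c 0) + ix (c 1)) [], ¬ Sub ix M S := by
  induction h with
  | step c c' S hmove _ ih =>
    intro M hM hsub
    have h1 := ((check_spec H c).2 M hM).2 c' hmove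
    unfold stepOK at h1
    simp only [List.any_eq_true, List.all_eq_true, List.mem_range] at h1
    obtain ⟨M', hM', o, _, ho⟩ := h1
    obtain ⟨r, hr, hall⟩ := famOK_spec H c' ((check_spec H c').2 M' hM').1
    have key : ∀ v, M'.testBit (ix v) = true → ∃ s, M.testBit (ix s) = true ∧ (∀ i, c' i ≠ s) ∧
        obsB (ix (c' 0)) (ix (c' 1)) (ix s) = o ∧ (v = s ∨ G.Adj s v) := by
      intro v hv
      have h2 := ho (ix v) (H.lt v)
      rw [hv] at h2
      simp only [Bool.not_true, Bool.false_or, List.any_eq_true, List.mem_range, Bool.and_eq_true,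
        bne_iff_ne, ne_eq, beq_iff_eq, Bool.or_eq_true] at h2
      obtain ⟨i, hi, ⟨⟨⟨h3, h4⟩, h5⟩, h6⟩, h7⟩ := h2
      obtain ⟨s, rfl⟩ := H.surj i hi
      refine ⟨s, h3, ?_, h6, ?_⟩
      · intro j hj
        fin_cases j
        · exact h4 (congrArg ix hj).symm
        · exact h5 (congrArg ix hj).symm
      · rcases h7 with h7 | h7
        · exact Or.inl (H.inj h7)
        · exact Or.inr ((H.adj _ _).2 h7)
    obtain ⟨s₀, hs₀, _, hos₀, _⟩ := key r hr
    have hsub' : Sub ix M' (Know G c' S (obs G c' s₀) (obs G c' r)) := by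
      intro v hv
      obtain ⟨s, h3, h4, h5, h6⟩ := key v hv
      exact ⟨s, hsub s h3, h4, obs_eq_iff H c' s s₀ (h5.trans hos₀.symm), h6, (hall v hv).1,
        (hall v hv).2⟩
    exact ih _ _ ⟨r, hsub' r hr⟩ M' hM' hsub'

theorem not_copsWin (H : Numbering G ix) : ¬ CopsWin G 2 := by
  rintro ⟨c, hc⟩
  obtain ⟨h1, h2⟩ := check_spec H c
  obtain ⟨M, hM⟩ := List.exists_mem_of_ne_nil _ h1
  obtain ⟨r, hr, hall⟩ := famOK_spec H c (h2 M hM).1
  have hsub : Sub ix M {x | (∀ i, c i ≠ x) ∧ obs G c x = obs G c r} := fun v hv => hall v hv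
  exact not_force H (hc (obs G c r) ⟨r, hsub r hr⟩) M hM hsub

end Transfer

/-! ### The graph -/

/-- The edges of the graph `G` on `{0, …, 7}`. -/
def edgeB (a b : Fin 8) : Bool :=
  [(0, 3), (0, 4), (0, 5), (0, 6), (0, 7), (1, 3), (1, 4), (1, 7), (2, 5), (2, 6), (2, 7), (3, 4), (3, 5), (3, 6), (3, 7), (4, 5), (4, 6), (4, 7), (5, 6), (5, 7), (6, 7)].any
    fun e : Fin 8 × Fin 8 => (a == e.1 && b == e.2) || (a == e.2 && b == e.1)

/-- The graph `G`. -/
def G₀ : SimpleGraph (Fin 8) where
  Adj a b := edgeB a b = true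
  symm := ⟨by decide⟩
  loopless := ⟨by decide⟩

/-- The one-vertex graph. -/
def J₀ : SimpleGraph (Fin 1) := ⊥

lemma G₀_conn : G₀.Connected := by
  have h7 : ∀ v : Fin 8, v ≠ 7 → edgeB v 7 = true := by decide
  have h0 : ∀ v : Fin 8, G₀.Reachable v 7 := by
    intro v
    by_cases hv : v = 7
    · rw [hv]
    · have : G₀.Adj v 7 := h7 v hv
      exact this.reachable
  exact ⟨fun u v => (h0 u).trans (h0 v).symm⟩

lemma J₀_conn : J₀.Connected :=
  ⟨fun u v => by rw [Subsingleton.elim u v]⟩

/-- numbering of the vertices of the join -/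
def ix₀ : Fin 8 ⊕ Fin 1 → ℕ
  | Sum.inl i => i
  | Sum.inr _ => 8

lemma numbering : Numbering (join G₀ J₀) ix₀ where
  inj := by
    rintro (u | u) (v | v) h
    · exact congrArg Sum.inl (Fin.ext h)
    · have h' : (u : ℕ) = 8 := h
      omega
    · have h' : 8 = (v : ℕ) := h
      omega
    · rw [Subsingleton.elim u v]
  lt := by
    rintro (u | u)
    · show (u : ℕ) < 9
      omega
    · show 8 < 9
      omega
  surj := by
    intro i hi
    by_cases h : i = 8
    · exact ⟨Sum.inr 0, h.symm⟩
    · exact ⟨Sum.inl ⟨i, by omega⟩, rfl⟩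
  adj := by
    have h1 : ∀ u v : Fin 8, edgeB u v = adjB u v := by decide
    have h2 : ∀ u : Fin 8, adjB u 8 = true ∧ adjB 8 u = true := by decide
    rintro (u | u) (v | v)
    · show edgeB u v = true ↔ adjB u v = true
      rw [h1]
    · show True ↔ adjB u 8 = true
      simp [(h2 u).1]
    · show True ↔ adjB 8 v = true
      simp [(h2 v).2]
    · show J₀.Adj u v ↔ adjB 8 8 = true
      simp [J₀, show adjB 8 8 = false by decide]

lemma upsilon_le : Upsilon (join G₀ J₀) ≤ 2 := by
  refine Nat.sInf_le ⟨{Sum.inl 1, Sum.inl 2}, ⟨⟨_, Finset.mem_insert_self _ _⟩, ?_⟩, ?_⟩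
  · have hc : ({Sum.inl 1, Sum.inl 2} : Finset (Fin 8 ⊕ Fin 1)).card = 2 := by decide
    rw [hc]
    have hsub : {x | ∀ v ∈ ({Sum.inl 1, Sum.inl 2} : Finset (Fin 8 ⊕ Fin 1)),
        (join G₀ J₀).Adj v x} ⊆ (↑({Sum.inl 7, Sum.inr 0} : Finset (Fin 8 ⊕ Fin 1)) : Set _) := by
      have key : ∀ x : Fin 8, edgeB 1 x = true → edgeB 2 x = true → x = 7 := by decide
      rintro (x | x) hx
      · have h1 : edgeB 1 x = true := hx (Sum.inl 1) (by simp)
        have h2 : edgeB 2 x = true := hx (Sum.inl 2) (by simp)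
        rw [key x h1 h2]
        simp
      · rw [Subsingleton.elim x 0]
        simp
    refine le_trans (Set.ncard_le_ncard hsub (Finset.finite_toSet _)) ?_
    rw [Set.ncard_coe_finset]
    decide
  · decide

theorem three_le_cH : 3 ≤ cH (join G₀ J₀) := by
  have hne : ({k | CopsWin (join G₀ J₀) k}).Nonempty := by
    refine ⟨9, copsWin_card (fun i : Fin 9 => if h : (i : ℕ) < 8 then Sum.inl ⟨i, h⟩ else Sum.inr 0) ?_⟩
    rintro (x | x)
    · exact ⟨⟨x, by omega⟩, by simp⟩
    · exact ⟨8, by rw [Subsingleton.elim x 0]; simp⟩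
  have hmem : CopsWin (join G₀ J₀) (cH (join G₀ J₀)) := Nat.sInf_mem hne
  by_contra hlt
  exact not_copsWin numbering (copsWin_two_of_le (by omega) hmem)

/-- **Main result.**  There are connected graphs `G` (8 vertices) and `J` (one vertex) with
`Υ(G ∨ J) ≤ 2 < 3 ≤ c_H(G ∨ J)`; hence `c_H(G ∨ J) ≤ Υ(G ∨ J)` does not hold for all connected
graphs `G` and `J`. -/
theorem result :
    (∃ (G : SimpleGraph (Fin 8)) (J : SimpleGraph (Fin 1)), G.Connected ∧ J.Connected ∧
      Upsilon (join G J) ≤ 2 ∧ 3 ≤ cH (join G J)) ∧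
    ¬ (∀ (V W : Type) [Fintype V] [Fintype W] (G : SimpleGraph V) (J : SimpleGraph W),
      G.Connected → J.Connected → cH (join G J) ≤ Upsilon (join G J)) := by
  refine ⟨⟨G₀, J₀, G₀_conn, J₀_conn, upsilon_le, three_le_cH⟩, fun h => ?_⟩
  have h1 := h (Fin 8) (Fin 1) G₀ J₀ G₀_conn J₀_conn
  have h2 := upsilon_le
  have h3 := three_le_cH
  omega

end Pool.Agent.Results.MP_bed60c_co.HyperopicJoin
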